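import Pool.Agent.Helper74.RN.St

/-!
# Project RN (MP_26f0da_lc), module THU: the reduction
-/

set_option autoImplicit false

namespace Pool.Agent.Helper73.RN

open Pool.Agent.Helper74 Pool.Agent.Helper74.RN

theorem ns_acts {G : Type} (w : List (Option G)) : ns (acts w) := by
  unfold acts
  rw [ns_append, ns_cons, ns_cons]
  refine ⟨?_, by simp, by simp, ?_⟩
  · intro z hz
    obtain ⟨x, _, rfl⟩ := List.mem_map.1 hz
    cases x <;> simp [a1]
  · intro z hz
    obtain ⟨x, _, rfl⟩ := List.mem_map.1 hz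
    cases x <;> simp [a2]

theorem no_a {G : Type} (w : List (Option G)) (y : G) :
    Ce.a y ∉ (Ce.c :: Ce.c :: w.reverse.map a2 : List (Ce G)) := by
  intro h
  rw [List.mem_cons, List.mem_cons] at h
  rcases h with h | h | h
  · cases h
  · cases h
  · obtain ⟨x, _, hx⟩ := List.mem_map.1 h
    cases x <;> simp [a2] at hx

theorem hTHU (hMMD : StMMD) (hMMC : StMMC) (hRNF : StRNF) (hRNG : StRNG) (hRNB : StRNB)
    (hRNC : StRNC) : StTHU := by
  intro G R w
  have hWd : Wd w = [] ++ Ce.s :: ((acts w).flatMap (bk (w.length + 2)) ++ []) := by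
    simp [Wd]
  have h1 : MM R (Wd w) ↔ Rn R (w.length + 2) (acts w) 0 0 := by
    constructor
    · intro h
      exact hMMD G R (w.length + 2) (Wd w) h (acts w) [] [] (ns_acts w) ns_nil ns_nil hWd
    · intro h
      rw [hWd]
      exact hMMC G R (w.length + 2) (acts w) 0 0 h [] [] (ns_acts w) ns_nil ns_nil rfl rfl
  have hlen : (w.filterMap id).length ≤ w.length := List.length_filterMap_le _ _
  rw [h1]
  unfold acts
  rw [hRNC G R (w.length + 2) _ _ 0 0 (no_a w)]
  constructor
  · rintro ⟨j, hj1, hj2⟩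
    obtain ⟨k, hk, hjk⟩ := hRNF G R _ _ 0 j hj1 w rfl
    have hjk' : j = k := by omega
    subst hjk'
    have hle := fo_le R _ _ hk
    have h2 := (hRNB G R (w.length + 2) w.reverse j 0 (by omega)).1 hj2
    rw [List.filterMap_reverse, List.length_reverse, List.length_reverse] at h2
    exact ⟨j, hk, by omega⟩
  · rintro ⟨k, hk, hle⟩
    refine ⟨k, ?_, ?_⟩
    · have h3 := hRNG G R (w.length + 2) _ k hk w 0 rfl (by omega)
      rwa [Nat.zero_add] at h3
    · refine (hRNB G R (w.length + 2) w.reverse k 0 (by omega)).2 ⟨Nat.zero_le _, ?_⟩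
      rw [List.filterMap_reverse, List.length_reverse, List.length_reverse]
      omega

end Pool.Agent.Helper73.RN
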